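import Mathlib
import Pool.Agent.H3PP.Ten

/-!
# MP_b983a8_nt: two primary pseudoperfect numbers with ten prime factors

For `r ≤ 8` there is exactly one primary pseudoperfect number with `r` prime factors, and Q1 asks for
`r = 9`. For `r = 10` there are at least two:
`A = 2·3·11·17·101·157·1979·10093·16879·5998279018951962403` (known, `N₉ (N₉ + 1)`) and
`B = 2·3·7·61·167·733·17137·183571·43296350362823·54276895434139407247582854229`, which is not of the
form `K (K + 1)`, so it does not come from a primary pseudoperfect number with nine prime factors.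

`B` was found by helper65 with the search programs of helper3 and helper65 for nine prime factors.
-/

set_option autoImplicit false

namespace Pool.Agent.Results.MP_b983a8_nt.TwoWithTenPrimes

/-- `N` is a primary pseudoperfect number. -/
def Ppp (N : ℕ) : Prop :=
  1 < N ∧ (∑ p ∈ N.primeFactors, (1 : ℚ) / (p : ℚ)) + 1 / (N : ℚ) = 1

/-- The number `N₉ (N₉ + 1)`. -/
def A : ℕ := 35979351189199316534587473905773572006

/-- The number `2·3·7·61·167·733·17137·183571·43296350362823·54276895434139407247582854229`. -/
def B : ℕ := 2318487344461212044808266715505249967391337588451045543300838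

theorem result :
    Ppp A ∧ Ppp B ∧ A ≠ B ∧ A.primeFactors.card = 10 ∧ B.primeFactors.card = 10 ∧
    (∀ K : ℕ, B ≠ K * (K + 1)) ∧ A % 288 = 6 ∧ B % 288 = 6 ∧
    ¬ ∀ M N : ℕ, Ppp M → Ppp N → M.primeFactors.card = 10 → N.primeFactors.card = 10 → M = N := by
  have hA : Ppp A := ⟨by decide +kernel, Pool.Agent.H3PP.first_ok.2⟩
  have hB : Ppp B := ⟨by decide +kernel, Pool.Agent.H3PP.second_ok.2⟩
  have hAB : A ≠ B := by decide +kernel
  refine ⟨hA, hB, hAB, Pool.Agent.H3PP.first_ok.1, Pool.Agent.H3PP.second_ok.1, ?_,
    by decide +kernel, by decide +kernel, fun h => hAB (h A B hA hB Pool.Agent.H3PP.first_ok.1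
      Pool.Agent.H3PP.second_ok.1)⟩
  intro K hK
  rcases Nat.lt_or_ge K (1522657986699971979235495220326 + 1) with h | h
  · have h1 : K * (K + 1) ≤ 1522657986699971979235495220326 * (1522657986699971979235495220326 + 1) :=
      Nat.mul_le_mul (by omega) (by omega)
    have h2 : 1522657986699971979235495220326 * (1522657986699971979235495220326 + 1) < B := by decide +kernel
    omega
  · have h1 : (1522657986699971979235495220326 + 1) * (1522657986699971979235495220326 + 1 + 1) ≤ K * (K + 1) := Nat.mul_le_mul h (by omega)
    have h2 : B < (1522657986699971979235495220326 + 1) * (1522657986699971979235495220326 + 1 + 1) := by decide +kernel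
    omega

end Pool.Agent.Results.MP_b983a8_nt.TwoWithTenPrimes
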